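import Pool.Agent.D0H80.AZ.Sub

set_option autoImplicit false
set_option linter.unusedSectionVars false

open scoped InnerProductSpace InnerProduct ENNReal

/-! Upper bounds for kernel dimensions pass from pieces to the group. -/

namespace Pool.Agent.D0H80.AZ

open Pool.Agent.W649.ZL

universe u

theorem kv_mapDomain {G : Type u} [Group G] (t : G) (α : G →₀ ℂ) :
    kv (α.mapDomain (fun x => t * x)) = kv α := by
  unfold kv
  rw [cop_mapDomain]
  congr 1
  ext f
  constructor
  · intro h
    have h' : Ltr t (cop α f) = 0 := h
    change cop α f = 0
    apply Ltr_injective t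
    rw [h', map_zero]
  · intro h
    have h' : cop α f = 0 := h
    change Ltr t (cop α f) = 0
    rw [h', map_zero]

theorem injective_single {G : Type u} [Group G] (α : G →₀ ℂ) (h : α.support.card = 1) :
    Function.Injective (cop α) := by
  classical
  obtain ⟨t, ht⟩ := Finset.card_eq_one.1 h
  have h1 : α = Finsupp.single t (α t) := by
    ext x
    by_cases hx : x = t
    · subst hx; simp
    · rw [Finsupp.single_apply, if_neg (Ne.symm hx)]
      by_contra hne
      have : x ∈ α.support := Finsupp.mem_support_iff.2 hne
      rw [ht, Finset.mem_singleton] at this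
      exact hx this
  have h2 : α t ≠ 0 := by
    have : t ∈ α.support := by rw [ht]; exact Finset.mem_singleton_self t
    exact Finsupp.mem_support_iff.1 this
  rw [h1, cop_single]
  intro f g hfg
  apply Ltr_injective t
  exact smul_right_injective _ h2 hfg

theorem gap_aux (c : ℝ) (hc : c ≤ 1) (G : Type u) [Group G]
    (h : ∀ H : Subgroup G, H.FG → H ≠ ⊥ → (∀ β : H →₀ ℂ, β ≠ 0 → kv β ≤ 1 - c) ∨
      ∃ (X : Type u) (_ : LinearOrder X) (_ : MulAction H X),
        (∀ (h : H) (x y : X), x ≤ y → h • x ≤ h • y) ∧ ∃ (h : H) (x : X), h • x ≠ x) :
    ∀ (n : ℕ) (α : G →₀ ℂ), α ≠ 0 → α.support.card = n → kv α ≤ 1 - c := by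
  classical
  intro n
  induction n using Nat.strong_induction_on with
  | _ n ih =>
    intro α hα hcard
    obtain ⟨t0, ht0⟩ := Finsupp.support_nonempty_iff.2 hα
    by_cases hone : α.support.card = 1
    · have h1 := vd_ker_of_injective _ (injective_single α hone)
      change vd _ ≤ 1 - c
      rw [h1]
      linarith
    · -- translate so that `1` is in the support
      let α' : G →₀ ℂ := α.mapDomain (fun x => t0⁻¹ * x)
      have hinjm : Function.Injective (fun x : G => t0⁻¹ * x) := mul_right_injective t0⁻¹
      have hsupp' : α'.support = α.support.image (fun x => t0⁻¹ * x) :=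
        Finsupp.mapDomain_support_of_injective hinjm α
      have h1mem : (1 : G) ∈ α'.support := by
        rw [hsupp', Finset.mem_image]
        exact ⟨t0, ht0, inv_mul_cancel t0⟩
      have hcard' : α'.support.card = n := by
        rw [hsupp', Finset.card_image_of_injective _ hinjm, hcard]
      have hα' : α' ≠ 0 := Finsupp.support_nonempty_iff.1 ⟨1, h1mem⟩
      rw [← kv_mapDomain t0⁻¹ α]
      change kv α' ≤ 1 - c
      let K : Subgroup G := Subgroup.closure (α'.support : Set G)
      have hKsupp : ∀ x ∈ α'.support, x ∈ K := fun x hx => Subgroup.subset_closure hx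
      have hKfg : K.FG := ⟨α'.support, rfl⟩
      have hKne : K ≠ ⊥ := by
        intro hbot
        have h2 : α'.support ⊆ {1} := by
          intro x hx
          have := hKsupp x hx
          rw [hbot, Subgroup.mem_bot] at this
          rw [this]; exact Finset.mem_singleton_self 1
        have h3 := Finset.card_le_card h2
        rw [Finset.card_singleton] at h3
        have h4 : 0 < α'.support.card := Finset.card_pos.2 ⟨1, h1mem⟩
        rw [hcard] at hone
        omega
      rw [kv_toSub K α' hKsupp]
      set β : K →₀ ℂ := toSub K α' with hβ
      have hβsupp : ∀ k : K, k ∈ β.support ↔ (k : G) ∈ α'.support := by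
        intro k
        rw [hβ, Finsupp.comapDomain_support, Finset.mem_preimage]
      have h1β : (1 : K) ∈ β.support := (hβsupp 1).2 h1mem
      have hβ0 : β ≠ 0 := Finsupp.support_nonempty_iff.1 ⟨1, h1β⟩
      have hβcard : β.support.card = n := by
        rw [← hcard', hβ, Finsupp.comapDomain_support]
        rw [Finset.card_preimage]
        congr 1
        ext x
        simp only [Finset.mem_filter, and_iff_left_iff_imp]
        intro hx
        exact ⟨⟨x, hKsupp x hx⟩, rfl⟩
      rcases h K hKfg hKne with hgap | ⟨X, _, _, hX, h0, x, hx⟩
      · exact hgap β hβ0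
      · -- some element of the support moves `x`
        obtain ⟨s, hs, hsx⟩ : ∃ s ∈ β.support, s • x ≠ x := by
          by_contra hcon
          push Not at hcon
          have hker : K ≤ (MulAction.stabilizer K x).map K.subtype := by
            rw [Subgroup.closure_le]
            intro y hy
            exact ⟨⟨y, hKsupp y hy⟩, hcon _ ((hβsupp _).2 hy), rfl⟩
          obtain ⟨k1, hk1, hk2⟩ := hker h0.2
          apply hx
          have : k1 = h0 := Subtype.ext hk2
          rw [← this]
          exact hk1
        obtain ⟨t1, ht1, hmin⟩ := Finset.exists_min_image β.support (fun t => t • x) ⟨1, h1β⟩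
        set m := t1 • x with hm
        refine (kv_initial hX β x m hmin).trans ?_
        set γ := β.filter (fun t => t • x = m) with hγ
        have hγne : γ ≠ 0 := by
          intro hz
          have h2 : γ t1 = β t1 := Finsupp.filter_apply_pos (fun t => t • x = m) β rfl
          rw [hz] at h2
          exact (Finsupp.mem_support_iff.1 ht1) h2.symm
        have hγcard : γ.support.card < n := by
          rw [← hβcard]
          apply Finset.card_lt_card
          rw [hγ, Finsupp.support_filter, Finset.ssubset_iff_subset_ne]
          refine ⟨Finset.filter_subset _ _, fun heq => ?_⟩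
          have hall : ∀ k ∈ β.support, k • x = m := by
            intro k hk
            rw [← heq, Finset.mem_filter] at hk
            exact hk.2
          apply hsx
          rw [hall s hs, ← hall 1 h1β, one_smul]
        -- back to the group
        have hiv : Function.Injective (Subtype.val : K → G) := Subtype.val_injective
        let γ' : G →₀ ℂ := γ.mapDomain (Subtype.val : K → G)
        have hsub : toSub K γ' = γ := by
          ext k
          rw [Finsupp.comapDomain_apply]
          exact Finsupp.mapDomain_apply hiv γ k
        have hsupp : γ'.support = γ.support.image (Subtype.val : K → G) :=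
          Finsupp.mapDomain_support_of_injective hiv γ
        have hmem : ∀ y ∈ γ'.support, y ∈ K := by
          intro y hy
          rw [hsupp, Finset.mem_image] at hy
          obtain ⟨k, _, rfl⟩ := hy
          exact k.2
        have hc' : γ'.support.card < n := by
          rw [hsupp, Finset.card_image_of_injective _ hiv]; exact hγcard
        have hne' : γ' ≠ 0 := by
          intro hz
          apply hγne
          rw [← hsub, hz]
          ext k
          rfl
        have h3 := ih _ hc' γ' hne' rfl
        rw [kv_toSub K γ' hmem, hsub] at h3
        exact h3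

end Pool.Agent.D0H80.AZ
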