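import Pool.Agent.W649.ZL.Core

set_option autoImplicit false
set_option linter.unusedSectionVars false

open scoped InnerProductSpace InnerProduct ENNReal

/-! The kernel of an equivariant operator on `ℓ²(G × J)` which does not raise the level, for levels
in a linearly ordered set on which the group acts. -/

namespace Pool.Agent.D0H80.AZ

open Pool.Agent.W649.ZL

universe u v w z

section
variable {G : Type u} {I : Type v} {J : Type w} [Group G]

theorem tr_sub' (k : G) (f g : EE G J) : tr k (f - g) = tr k f - tr k g := by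
  ext x; rfl

/-- right translation as a continuous linear map -/
noncomputable def trL (k : G) : EE G J →L[ℂ] EE G J :=
  LinearMap.mkContinuous { toFun := tr k, map_add' := tr_add k, map_smul' := tr_smul k } 1
    (fun f => by rw [one_mul]; exact (norm_tr k f).le)

/-- Pythagoras for finitely many orthogonal subspaces. -/
theorem bessel_sum {X : Type z} (U : X → Submodule ℂ (EE G J))
    [∀ x, (U x).HasOrthogonalProjection] (R : Finset X)
    (hR : ∀ s ∈ R, ∀ t ∈ R, s ≠ t → ∀ a ∈ U s, ∀ b ∈ U t, ⟪a, b⟫_ℂ = 0)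
    (w : EE G J) : ∑ t ∈ R, ‖(U t).starProjection w‖ ^ 2 ≤ ‖w‖ ^ 2 := by
  classical
  set p : X → EE G J := fun t => (U t).starProjection w with hp
  have hself : ∀ t, ⟪p t, w⟫_ℂ = (‖p t‖ : ℂ) ^ 2 := by
    intro t
    have h2 : ⟪w - (U t).starProjection w, (U t).starProjection w⟫_ℂ = 0 :=
      Submodule.starProjection_inner_eq_zero _ _ (Submodule.starProjection_apply_mem _ _)
    rw [inner_sub_left, sub_eq_zero] at h2
    rw [hp]
    simp only
    rw [← inner_conj_symm, h2, inner_self_eq_norm_sq_to_K]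
    simp
  have key : ∀ R' ⊆ R, ‖w - ∑ t ∈ R', p t‖ ^ 2 = ‖w‖ ^ 2 - ∑ t ∈ R', ‖p t‖ ^ 2 := by
    intro R'
    induction R' using Finset.induction_on with
    | empty => intro _; simp
    | insert s R' hs ih =>
      intro hsub
      have hsR : s ∈ R := hsub (Finset.mem_insert_self _ _)
      have hR'R : R' ⊆ R := fun t ht => hsub (Finset.mem_insert_of_mem ht)
      have ih' := ih hR'R
      rw [Finset.sum_insert hs, Finset.sum_insert hs]
      set D := w - ∑ t ∈ R', p t with hD
      have e1 : w - (p s + ∑ t ∈ R', p t) = D - p s := by rw [hD]; abel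
      have e2 : ⟪p s, D⟫_ℂ = (‖p s‖ : ℂ) ^ 2 := by
        rw [hD, inner_sub_right, hself, inner_sum]
        rw [Finset.sum_eq_zero, sub_zero]
        intro t ht
        exact hR s hsR t (hR'R ht) (fun h => hs (h ▸ ht)) _
          (Submodule.starProjection_apply_mem _ _) _ (Submodule.starProjection_apply_mem _ _)
      have e3 : (⟪D, p s⟫_ℂ).re = ‖p s‖ ^ 2 := by
        rw [← inner_conj_symm, e2]
        norm_cast
      have e4 := norm_sub_sq (𝕜 := ℂ) D (p s)
      rw [e1, e4, ih']
      change _ - 2 * (⟪D, p s⟫_ℂ).re + _ = _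
      rw [e3]
      ring
  have h1 := key R subset_rfl
  have h2 : 0 ≤ ‖w - ∑ t ∈ R, p t‖ ^ 2 := by positivity
  linarith

theorem sum_le_norm_sq {Y : Type*} (f : lp (fun _ : Y => ℂ) 2) (F : Finset Y) :
    ∑ y ∈ F, ‖f y‖ ^ 2 ≤ ‖f‖ ^ 2 := by
  rw [norm_sq_tsum]
  exact ((memlp_two_iff _).1 f.2).sum_le_tsum _ (fun _ _ => by positivity)

/-- closed span of the images of basis vectors -/
noncomputable def gen (q : EE G J →L[ℂ] EE G J) (A : Set (G × J)) : Submodule ℂ (EE G J) :=
  (Submodule.span ℂ {f | ∃ x ∈ A, f = q (dl x)}).topologicalClosure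

theorem isClosed_gen (q : EE G J →L[ℂ] EE G J) (A : Set (G × J)) :
    IsClosed (gen q A : Set (EE G J)) := Submodule.isClosed_topologicalClosure _

theorem gen_le {q : EE G J →L[ℂ] EE G J} {A : Set (G × J)} {U : Submodule ℂ (EE G J)}
    (hU : IsClosed (U : Set (EE G J))) (h : ∀ x ∈ A, q (dl x) ∈ U) : gen q A ≤ U :=
  Submodule.topologicalClosure_minimal _
    (Submodule.span_le.2 (by rintro _ ⟨x, hx, rfl⟩; exact h x hx)) hU

theorem mem_gen {q : EE G J →L[ℂ] EE G J} {A : Set (G × J)} {x : G × J} (hx : x ∈ A) :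
    q (dl x) ∈ gen q A :=
  Submodule.le_topologicalClosure _ (Submodule.subset_span ⟨x, hx, rfl⟩)

theorem gen_mono {q : EE G J →L[ℂ] EE G J} {A B : Set (G × J)} (h : A ⊆ B) : gen q A ≤ gen q B :=
  gen_le (isClosed_gen q B) fun _ hg => mem_gen (h hg)

theorem gen_tr {q : EE G J →L[ℂ] EE G J} (hq : Eqv q) {A B : Set (G × J)} {g : G}
    (h : ∀ a ∈ A, (a.1 * g⁻¹, a.2) ∈ B) {f : EE G J} (hf : f ∈ gen q A) : tr g f ∈ gen q B := by
  have : gen q A ≤ (gen q B).comap ((trL g : EE G J →L[ℂ] EE G J) : EE G J →ₗ[ℂ] EE G J) := by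
    apply gen_le
    · exact (isClosed_gen q B).preimage (trL (J := J) g).continuous
    · intro a ha
      change tr g (q (dl a)) ∈ gen q B
      have e : tr g (q (dl a)) = q (dl (a.1 * g⁻¹, a.2)) := by rw [← hq, ← tr_dl]
      rw [e]
      exact mem_gen (h a ha)
  exact this hf

/-- a function supported on `A` is mapped to `gen q A` -/
theorem mem_gen_of_supp {q : EE G J →L[ℂ] EE G J} {A : Set (G × J)} {f : EE G J}
    (hf : ∀ x, x ∉ A → f x = 0) : q f ∈ gen q A := by
  let U : Submodule ℂ (EE G J) := (gen q A).comap (q : EE G J →ₗ[ℂ] EE G J)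
  have hU : IsClosed (U : Set (EE G J)) := (isClosed_gen q A).preimage q.continuous
  have hc : CompleteSpace U := hU.completeSpace_coe
  have h1 : f ∈ Uᗮᗮ := by
    rw [Submodule.mem_orthogonal]
    intro z hz
    rw [lp.inner_eq_tsum]
    have h0 : ∀ x : G × J, ⟪z x, f x⟫_ℂ = 0 := by
      intro x
      by_cases hg : x ∈ A
      · have h2 : dl x ∈ U := mem_gen hg
        have h3 : ⟪dl x, z⟫_ℂ = 0 := (Submodule.mem_orthogonal _ _).1 hz _ h2
        rw [inner_dl_left] at h3
        rw [h3, inner_zero_left]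
      · rw [hf x hg, inner_zero_right]
    rw [tsum_congr h0, tsum_zero]
  rw [Submodule.orthogonal_orthogonal] at h1
  exact h1

/-- restriction of a function to a subset -/
theorem exists_res (A : Set (G × J)) (f : EE G J) :
    ∃ g : EE G J, (∀ x ∈ A, g x = f x) ∧ (∀ x, x ∉ A → g x = 0) := by
  classical
  have hm : Memℓp (fun x : G × J => if x ∈ A then f x else 0) 2 := by
    rw [memlp_two_iff]
    refine Summable.of_nonneg_of_le (fun _ => by positivity) (fun x => ?_) ((memlp_two_iff _).1 f.2)
    split_ifs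
    · exact le_rfl
    · simp
  exact ⟨⟨fun x => if x ∈ A then f x else 0, hm⟩, fun x hx => if_pos hx, fun x hx => if_neg hx⟩

variable {X : Type z} [LinearOrder X] [MulAction G X]

/-- The level of a basis vector. -/
def lev (r : J → X) (x : G × J) : X := x.1⁻¹ • r x.2

theorem lev_tr (r : J → X) (g : G) (x : G × J) : lev r (x.1 * g⁻¹, x.2) = g • lev r x := by
  unfold lev
  rw [mul_inv_rev, inv_inv, mul_smul]

/-- **The kernel of a triangular operator** has at most the dimension of the kernel of its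
diagonal part. -/
theorem vd_ker_le [Fintype I] [Fintype J]
    (hX : ∀ (g : G) (x y : X), x ≤ y → g • x ≤ g • y) (r : J → X) (s : I → X)
    (L L₀ : EE G J →L[ℂ] EE G I) (hL : Eqv L)
    (hsupp : ∀ x y, lev r x < lev s y → L (dl x) y = 0)
    (h0 : ∀ (f : EE G J) y, (∀ x, lev r x ≠ lev s y → f x = 0) → L f y = L₀ f y)
    (h1 : ∀ (f g : EE G J) y, (∀ x, lev r x = lev s y → f x = g x) → L₀ f y = L₀ g y) :
    vd (LinearMap.ker (L : EE G J →ₗ[ℂ] EE G I))
      ≤ vd (LinearMap.ker (L₀ : EE G J →ₗ[ℂ] EE G I)) := by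
  classical
  have hlt : ∀ (g : G) (x y : X), x < y → g • x < g • y := by
    intro g x y hxy
    refine lt_of_le_of_ne (hX g x y hxy.le) fun h => hxy.ne ?_
    exact (MulAction.injective g) h
  set V := LinearMap.ker (L : EE G J →ₗ[ℂ] EE G I) with hV
  have hVc : IsClosed (V : Set (EE G J)) := ContinuousLinearMap.isClosed_ker L
  have hVcomp : CompleteSpace V := hVc.completeSpace_coe
  have hVinv : W649.ZL.Inv V := inv_ker L hL
  have hWinv : W649.ZL.Inv Vᗮ := by
    intro k f hf
    rw [Submodule.mem_orthogonal] at hf ⊢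
    intro u hu
    rw [← inner_tr k⁻¹, tr_tr, inv_mul_cancel, tr_one]
    exact hf _ (hVinv k⁻¹ u hu)
  set q : EE G J →L[ℂ] EE G J := (Vᗮ).starProjection with hq
  have hqe : Eqv q := proj_tr hWinv
  have hLq : ∀ f, L (q f) = L f := by
    intro f
    have h2 : f - q f ∈ V := by
      have h3 : f - q f ∈ Vᗮᗮ := Submodule.sub_starProjection_mem_orthogonal f
      rw [Submodule.orthogonal_orthogonal] at h3
      exact h3
    have h3 : L (f - q f) = 0 := h2
    rw [map_sub, sub_eq_zero] at h3
    exact h3.symm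
  -- the filtration
  let M : X → Submodule ℂ (EE G J) := fun c => gen q {x | lev r x ≤ c}
  let N : X → Submodule ℂ (EE G J) := fun c => gen q {x | lev r x < c}
  have hNcomp : ∀ c, CompleteSpace (N c) := fun c => (isClosed_gen q _).completeSpace_coe
  have hNM : ∀ c, N c ≤ M c := fun c => gen_mono fun x (hx : lev r x < c) => le_of_lt hx
  have hMN : ∀ c d, c < d → M c ≤ N d := fun c d hcd =>
    gen_mono fun x (hx : lev r x ≤ c) => lt_of_le_of_lt hx hcd
  have hMV : ∀ c, M c ≤ Vᗮ := fun c => gen_le (Submodule.isClosed_orthogonal V) fun x _ =>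
    Submodule.starProjection_apply_mem _ _
  have hMtr : ∀ g c f, f ∈ M c → tr g f ∈ M (g • c) := by
    intro g c f hf
    refine gen_tr hqe (fun a (ha : lev r a ≤ c) => ?_) hf
    change lev r (a.1 * g⁻¹, a.2) ≤ g • c
    rw [lev_tr]
    exact hX g _ _ ha
  have hNtr : ∀ g c f, f ∈ N c → tr g f ∈ N (g • c) := by
    intro g c f hf
    refine gen_tr hqe (fun a (ha : lev r a < c) => ?_) hf
    change lev r (a.1 * g⁻¹, a.2) < g • c
    rw [lev_tr]
    exact hlt g _ _ ha
  -- the wandering subspaces
  let U : X → Submodule ℂ (EE G J) := fun c => M c ⊓ (N c)ᗮ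
  have hUc : ∀ c, IsClosed (U c : Set (EE G J)) := by
    intro c
    change IsClosed ((M c ⊓ (N c)ᗮ : Submodule ℂ (EE G J)) : Set (EE G J))
    rw [Submodule.coe_inf]
    exact (isClosed_gen q _).inter (Submodule.isClosed_orthogonal _)
  have hUcomp : ∀ c, CompleteSpace (U c) := fun c => (hUc c).completeSpace_coe
  have hUV : ∀ c, U c ≤ Vᗮ := fun c f hf => hMV c hf.1
  have hUtr : ∀ g c f, f ∈ U c → tr g f ∈ U (g • c) := by
    intro g c f hf
    refine ⟨hMtr g c f hf.1, ?_⟩
    change tr g f ∈ (N (g • c))ᗮ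
    rw [Submodule.mem_orthogonal]
    intro m hm
    have h3 : tr g⁻¹ m ∈ N c := by
      have := hNtr g⁻¹ _ _ hm
      rwa [smul_smul, inv_mul_cancel, one_smul] at this
    have h2 : ⟪tr g⁻¹ m, f⟫_ℂ = 0 := (Submodule.mem_orthogonal _ _).1 hf.2 _ h3
    rw [inner_tr_left, inv_inv] at h2
    exact h2
  have hOlt : ∀ c d, c < d → ∀ a ∈ U c, ∀ b ∈ U d, ⟪a, b⟫_ℂ = 0 := by
    intro c d hcd a ha b hb
    exact (Submodule.mem_orthogonal _ _).1 hb.2 _ (hMN c d hcd ha.1)
  have hO : ∀ c d, c ≠ d → ∀ a ∈ U c, ∀ b ∈ U d, ⟪a, b⟫_ℂ = 0 := by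
    intro c d hcd a ha b hb
    rcases lt_or_gt_of_ne hcd with h | h
    · exact hOlt c d h a ha b hb
    · rw [← inner_conj_symm, hOlt d c h b hb a ha, map_zero]
  have hproj : ∀ g c (f : EE G J),
      (U (g • c)).starProjection (tr g f) = tr g ((U c).starProjection f) := by
    intro g c f
    apply Submodule.eq_starProjection_of_mem_of_inner_eq_zero
    · exact hUtr g c _ (Submodule.starProjection_apply_mem _ _)
    · intro u hu
      rw [← tr_sub', inner_tr_left]
      refine Submodule.starProjection_inner_eq_zero f _ ?_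
      have := hUtr g⁻¹ _ u hu
      rwa [smul_smul, inv_mul_cancel, one_smul] at this
  -- the operator
  have hB : ∀ (w : EE G J) (F : Finset (G × J)),
      ∑ x ∈ F, ‖(U (lev r x)).starProjection w x‖ ^ 2 ≤ ‖w‖ ^ 2 := by
    intro w F
    have hmaps : ∀ x ∈ F, lev r x ∈ F.image (lev r) := fun x hx => Finset.mem_image_of_mem _ hx
    rw [← Finset.sum_fiberwise_of_maps_to hmaps]
    refine le_trans (Finset.sum_le_sum (g := fun c => ‖(U c).starProjection w‖ ^ 2)
      fun c _ => ?_) (bessel_sum U _ (fun c _ d _ hcd => hO c d hcd) w)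
    have e1 : ∑ x ∈ F with lev r x = c, ‖(U (lev r x)).starProjection w x‖ ^ 2
        = ∑ x ∈ F with lev r x = c, ‖(U c).starProjection w x‖ ^ 2 := by
      refine Finset.sum_congr rfl fun x hx => ?_
      rw [(Finset.mem_filter.1 hx).2]
    rw [e1]
    exact sum_le_norm_sq _ _
  have hs : ∀ w : EE G J, Summable (fun x : G × J => ‖(U (lev r x)).starProjection w x‖ ^ 2) :=
    fun w => summable_of_sum_le (fun _ => by positivity) (hB w)
  obtain ⟨T, hT⟩ : ∃ T : EE G J →L[ℂ] EE G J, ∀ w x, T w x = (U (lev r x)).starProjection w x := by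
    let T0 : EE G J →ₗ[ℂ] EE G J :=
      { toFun := fun w => ⟨fun x => (U (lev r x)).starProjection w x, (memlp_two_iff _).2 (hs w)⟩
        map_add' := fun f g => by
          ext x
          change (U (lev r x)).starProjection (f + g) x = (U (lev r x)).starProjection f x
            + (U (lev r x)).starProjection g x
          rw [map_add]; rfl
        map_smul' := fun c f => by
          ext x
          change (U (lev r x)).starProjection (c • f) x = c * (U (lev r x)).starProjection f x
          rw [map_smul]; rfl }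
    refine ⟨T0.mkContinuous 1 (fun w => ?_), fun w x => rfl⟩
    rw [one_mul]
    have e : ‖T0 w‖ ^ 2 ≤ ‖w‖ ^ 2 := by
      rw [norm_sq_tsum (T0 w)]
      exact (hs w).tsum_le_of_sum_le (hB w)
    exact (sq_le_sq₀ (norm_nonneg _) (norm_nonneg _)).1 e
  have hTe : Eqv T := by
    intro k f
    ext ⟨g, j⟩
    rw [tr_apply, hT, hT]
    simp only
    have e1 : lev r (g, j) = k • lev r (g * k, j) := by
      have := lev_tr r k (g * k, j)
      simp only [mul_inv_cancel_right] at this
      exact this
    have e2 : (U (lev r (g, j))).starProjection (tr k f)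
        = tr k ((U (lev r (g * k, j))).starProjection f) := by
      rw [e1]
      exact hproj k _ f
    rw [e2, tr_apply]
  have hVT : V ≤ LinearMap.ker (T : EE G J →ₗ[ℂ] EE G J) := by
    intro f hf
    change T f = 0
    ext x
    rw [hT]
    have h2 : (U (lev r x)).starProjection f = 0 := by
      rw [Submodule.starProjection_apply_eq_zero_iff, Submodule.mem_orthogonal]
      intro u hu
      have h3 : ⟪f, u⟫_ℂ = 0 := (Submodule.mem_orthogonal _ _).1 (hUV _ hu) _ hf
      rw [← inner_conj_symm, h3, map_zero]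
    rw [h2]
  have hTU : ∀ c, ∀ u ∈ U c, (∀ x, lev r x = c → T u x = u x) ∧ (∀ x, lev r x ≠ c → T u x = 0) := by
    intro c u hu
    constructor
    · intro x hx
      rw [hT, hx, Submodule.starProjection_eq_self_iff.2 hu]
    · intro x hx
      rw [hT]
      have h2 : (U (lev r x)).starProjection u = 0 := by
        rw [Submodule.starProjection_apply_eq_zero_iff, Submodule.mem_orthogonal]
        intro v hv
        exact hO _ _ hx v hv u hu
      rw [h2]
      rfl
  -- the kernel of the adjoint is contained in the kernel of `L₀`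
  have hker : LinearMap.ker (ContinuousLinearMap.adjoint T : EE G J →ₗ[ℂ] EE G J)
      ≤ LinearMap.ker (L₀ : EE G J →ₗ[ℂ] EE G I) := by
    intro ξ hξ
    have hξ' : ContinuousLinearMap.adjoint T ξ = 0 := hξ
    change L₀ ξ = 0
    ext t
    set c := lev s t with hc
    obtain ⟨y, hy1, hy2⟩ := exists_res {x | lev r x = c} ξ
    have hyU : ∀ u ∈ U c, ⟪y, u⟫_ℂ = 0 := by
      intro u hu
      have e1 : ⟪y, u⟫_ℂ = ⟪ξ, T u⟫_ℂ := by
        rw [lp.inner_eq_tsum, lp.inner_eq_tsum]
        refine tsum_congr fun x => ?_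
        by_cases hx : lev r x = c
        · rw [hy1 x hx, (hTU c u hu).1 x hx]
        · rw [hy2 x hx, (hTU c u hu).2 x hx, inner_zero_left, inner_zero_right]
      rw [e1, ← ContinuousLinearMap.adjoint_inner_left, hξ', inner_zero_left]
    have hqy : q y ∈ N c := by
      have hqM : q y ∈ M c := by
        refine gen_mono (A := {x | lev r x = c}) (fun x (hx : lev r x = c) => le_of_eq hx) ?_
        exact mem_gen_of_supp hy2
      have h2 : q y - (N c).starProjection (q y) ∈ U c := by
        refine ⟨(M c).sub_mem hqM (hNM c (Submodule.starProjection_apply_mem _ _)), ?_⟩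
        exact Submodule.sub_starProjection_mem_orthogonal _
      have h3 : ⟪q y, q y - (N c).starProjection (q y)⟫_ℂ = 0 := by
        have h4 : ⟪y - q y, q y - (N c).starProjection (q y)⟫_ℂ = 0 :=
          Submodule.starProjection_inner_eq_zero _ _ (hUV c h2)
        rw [inner_sub_left, sub_eq_zero] at h4
        rw [← h4]
        exact hyU _ h2
      have h5 : ⟪(N c).starProjection (q y), q y - (N c).starProjection (q y)⟫_ℂ = 0 :=
        (Submodule.mem_orthogonal _ _).1 h2.2 _ (Submodule.starProjection_apply_mem _ _)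
      have h6 : ⟪q y - (N c).starProjection (q y), q y - (N c).starProjection (q y)⟫_ℂ = 0 := by
        rw [inner_sub_left, h3, h5, sub_zero]
      rw [inner_self_eq_zero, sub_eq_zero] at h6
      rw [h6]
      exact Submodule.starProjection_apply_mem _ _
    have hfin : L (q y) t = 0 := by
      let F : EE G J →L[ℂ] ℂ := (innerSL ℂ (dl t)).comp L
      have h2 : N c ≤ LinearMap.ker (F : EE G J →ₗ[ℂ] ℂ) := by
        apply gen_le (ContinuousLinearMap.isClosed_ker F)
        intro x hx
        change ⟪dl t, L (q (dl x))⟫_ℂ = 0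
        rw [hLq, inner_dl_left]
        exact hsupp x t hx
      have h3 : ⟪dl t, L (q y)⟫_ℂ = 0 := h2 hqy
      rw [inner_dl_left] at h3
      exact h3
    rw [hLq, h0 y t (fun x hx => hy2 x hx), h1 y ξ t (fun x hx => hy1 x hx)] at hfin
    exact hfin
  have e1 := ker_add_range T hTe
  have e2 := ker_add_range _ hTe.adjoint
  have e3 := vd_range_adjoint T hTe
  have e4 := vd_mono hVT
  have e5 := vd_mono hker
  linarith

end

end Pool.Agent.D0H80.AZ
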