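import Pool.Agent.D0H80.AZ.Init
import Pool.Agent.W649.ZL.Mat

set_option autoImplicit false
set_option linter.unusedSectionVars false

open scoped InnerProductSpace InnerProduct ENNReal

/-! Kernel dimensions of matrices over the group algebra and of their initial parts. -/

namespace Pool.Agent.D0H80.AZ

open Pool.Agent.W649.ZL

universe u v w z

section
variable {G : Type u} [Group G] {K : Type v} {L : Type w} [Fintype K] [Fintype L]
  [DecidableEq K] [DecidableEq L]

/-- all elements of the supports of the entries -/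
noncomputable def allSupp (A : K → L → (G →₀ ℂ)) : Finset G := by
  classical
  exact Finset.univ.biUnion fun k : K => Finset.univ.biUnion fun j : L => (A k j).support

theorem mem_allSupp (A : K → L → (G →₀ ℂ)) (k : K) (j : L) (g : G) (h : g ∈ (A k j).support) :
    g ∈ allSupp A := by
  classical
  unfold allSupp
  exact Finset.mem_biUnion.2 ⟨k, Finset.mem_univ _, Finset.mem_biUnion.2 ⟨j, Finset.mem_univ _, h⟩⟩

/-- the operator of a matrix with entries supported in `T` -/
noncomputable def opM (T : Finset G) (A : K → L → (G →₀ ℂ)) : EE G K →L[ℂ] EE G L :=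
  lin (famR (fun i : T × K × L => (i.1 : G)) (fun i => i.2.1) (fun i => i.2.2)) (coefT T A)

theorem kerDimM_opM (T : Finset G) (A : K → L → (G →₀ ℂ)) (hT : ∀ k j, (A k j).support ⊆ T) :
    kerDimM A = vd (LinearMap.ker (opM T A : EE G K →ₗ[ℂ] EE G L)) := by
  conv_lhs => rw [← matM_coefT T A hT]
  exact kerDimM_eq _ _ _ _

theorem opM_apply (T : Finset G) (A : K → L → (G →₀ ℂ)) (F : EE G K) (u : G) (j : L) :
    opM T A F (u, j) = ∑ k : K, ∑ g ∈ T, A k j g * F (g * u, k) := by
  classical
  unfold opM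
  rw [lin_famR_apply, Fintype.sum_prod_type, Finset.sum_comm' (t' := Finset.univ)
    (s' := fun _ => Finset.univ) (by simp), Fintype.sum_prod_type]
  refine Finset.sum_congr rfl fun k _ => ?_
  rw [Finset.sum_comm, ← Finset.sum_coe_sort T (fun g => A k j g * F (g * u, k))]
  refine Finset.sum_congr rfl fun t _ => ?_
  rw [Finset.sum_eq_single j]
  · simp [coefT]
  · intro j' _ hj'
    simp [Ne.symm hj']
  · intro h; exact absurd (Finset.mem_univ _) h

theorem opM_eqv (T : Finset G) (A : K → L → (G →₀ ℂ)) : Eqv (opM T A) :=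
  lin_eqv _ (famR_eqv _ _ _) _

variable {X : Type z} [LinearOrder X] [MulAction G X]

/-- The kernel dimension of a matrix is at most that of its initial part. -/
theorem kerDimM_initial (hX : ∀ (g : G) (x y : X), x ≤ y → g • x ≤ g • y)
    (A A₀ : K → L → (G →₀ ℂ)) (r : K → X) (s : L → X)
    (hA : ∀ k j, ∀ g ∈ (A k j).support, g • s j ≤ r k)
    (h0 : ∀ k j g, g • s j = r k → A₀ k j g = A k j g)
    (h0' : ∀ k j g, g • s j ≠ r k → A₀ k j g = 0) :
    kerDimM A ≤ kerDimM A₀ := by
  classical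
  set T := allSupp A with hT
  have hT1 : ∀ k j, (A k j).support ⊆ T := fun k j g hg => mem_allSupp A k j g hg
  have hT2 : ∀ k j, (A₀ k j).support ⊆ T := by
    intro k j g hg
    apply hT1 k j
    rw [Finsupp.mem_support_iff] at hg ⊢
    by_cases h : g • s j = r k
    · rw [← h0 k j g h]; exact hg
    · exact absurd (h0' k j g h) hg
  rw [kerDimM_opM T A hT1, kerDimM_opM T A₀ hT2]
  refine vd_ker_le hX r s (opM T A) (opM T A₀) (opM_eqv _ _) ?_ ?_ ?_
  · rintro ⟨g, k⟩ ⟨u, j⟩ hlt
    rw [opM_apply]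
    apply Finset.sum_eq_zero
    intro k' _
    apply Finset.sum_eq_zero
    intro t ht
    by_cases h1 : (t * u, k') = (g, k)
    · obtain ⟨h2, h3⟩ := Prod.mk.inj h1
      by_cases h4 : A k' j t = 0
      · rw [h4, zero_mul]
      · exfalso
        have h5 := hA k' j t (Finsupp.mem_support_iff.2 h4)
        have h6 := hX (t * u)⁻¹ _ _ h5
        unfold lev at hlt
        simp only at hlt
        rw [← h2, ← h3] at hlt
        rw [smul_smul] at h6
        have e : (t * u)⁻¹ * t = u⁻¹ := by group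
        rw [e] at h6
        exact absurd h6 (not_le.2 hlt)
    · rw [dl_apply_ne _ _ h1, mul_zero]
  · rintro f ⟨u, j⟩ hf
    rw [opM_apply, opM_apply]
    refine Finset.sum_congr rfl fun k _ => Finset.sum_congr rfl fun t _ => ?_
    by_cases h1 : t • s j = r k
    · rw [h0 k j t h1]
    · rw [h0' k j t h1, hf, mul_zero, zero_mul]
      unfold lev
      simp only
      intro h
      apply h1
      have h2 : (t * u) • ((t * u)⁻¹ • r k) = (t * u) • (u⁻¹ • s j) := by rw [h]
      rw [smul_inv_smul, mul_smul, smul_inv_smul] at h2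
      exact h2.symm
  · rintro f g ⟨u, j⟩ hfg
    rw [opM_apply, opM_apply]
    refine Finset.sum_congr rfl fun k _ => Finset.sum_congr rfl fun t _ => ?_
    by_cases h1 : t • s j = r k
    · rw [hfg]
      unfold lev
      simp only
      rw [← h1, smul_smul]
      congr 1
      group
    · rw [h0' k j t h1, zero_mul, zero_mul]

end

/-! The rank of a complex matrix. -/

section
variable {G : Type u} [Group G]

theorem vd_map_le {I : Type v} {J : Type w} [Fintype I] [Fintype J] (T : EE G I →L[ℂ] EE G J)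
    (hT : Eqv T) {U : Submodule ℂ (EE G I)} (hU : W649.ZL.Inv U) :
    vd (U.map (T : EE G I →ₗ[ℂ] EE G J)) ≤ vd U := by
  have h1 := rank_nullity T hT hU.topologicalClosure U.isClosed_topologicalClosure
  have h2 : vd (U.map (T : EE G I →ₗ[ℂ] EE G J))
      ≤ vd (U.topologicalClosure.map (T : EE G I →ₗ[ℂ] EE G J)) :=
    vd_mono (Submodule.map_mono U.le_topologicalClosure)
  have h3 := vd_nonneg (U.topologicalClosure ⊓ LinearMap.ker (T : EE G I →ₗ[ℂ] EE G J))
  rw [vd_closure] at h1
  linarith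

theorem inv_range {I : Type v} {J : Type w} (T : EE G I →L[ℂ] EE G J) (hT : Eqv T) :
    W649.ZL.Inv (LinearMap.range (T : EE G I →ₗ[ℂ] EE G J)) := by
  rintro k _ ⟨f, rfl⟩
  exact ⟨tr k f, hT k f⟩

/-- The kernel dimension of a monomial matrix `c(k, j) a(k) b(j)⁻¹`. -/
theorem kerDimM_rank {m n : ℕ} (C : Matrix (Fin m) (Fin n) ℂ) (a : Fin m → G) (b : Fin n → G) :
    kerDimM (fun k j => Finsupp.single (a k * (b j)⁻¹) (C k j)) ≤ m - C.rank := by
  classical
  set A : Fin m → Fin n → (G →₀ ℂ) := fun k j => Finsupp.single (a k * (b j)⁻¹) (C k j) with hA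
  set T := allSupp A with hT
  have hT1 : ∀ k j, (A k j).support ⊆ T := fun k j g hg => mem_allSupp A k j g hg
  rw [kerDimM_opM T A hT1]
  set S := opM T A with hS
  have hSe : Eqv S := opM_eqv _ _
  have hSapp : ∀ (F : EE G (Fin m)) u j, S F (u, j) = ∑ k, C k j * F (a k * (b j)⁻¹ * u, k) := by
    intro F u j
    rw [hS, opM_apply]
    refine Finset.sum_congr rfl fun k _ => ?_
    by_cases hc : C k j = 0
    · rw [hc, zero_mul]
      apply Finset.sum_eq_zero
      intro g _
      have : A k j g = 0 := by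
        simp [hA, hc]
      rw [this, zero_mul]
    · rw [Finset.sum_eq_single (a k * (b j)⁻¹)]
      · have : A k j (a k * (b j)⁻¹) = C k j := by simp [hA]
        rw [this]
      · intro g _ hg
        have : A k j g = 0 := by
          rw [hA]; simp only; rw [Finsupp.single_apply, if_neg (Ne.symm hg)]
        rw [this, zero_mul]
      · intro h
        exfalso
        apply h
        apply hT1 k j
        rw [Finsupp.mem_support_iff]
        simp [hA, hc]
  -- factor the identity through `C`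
  set ρ := C.rank with hρ
  obtain ⟨P, Q, hPQ⟩ : ∃ (P : Matrix (Fin ρ) (Fin m) ℂ) (Q : Matrix (Fin n) (Fin ρ) ℂ),
      P * C * Q = 1 := by
    let φ : (Fin n → ℂ) →ₗ[ℂ] (Fin m → ℂ) := C.mulVecLin
    have hfr : Module.finrank ℂ (LinearMap.range φ) = ρ := rfl
    let e : (Fin ρ → ℂ) ≃ₗ[ℂ] LinearMap.range φ :=
      LinearEquiv.ofFinrankEq _ _ (by rw [hfr]; simp)
    obtain ⟨g, hg⟩ := (LinearMap.range φ).subtype.exists_leftInverse_of_injective
      (Submodule.ker_subtype _)
    obtain ⟨h, hh⟩ := φ.rangeRestrict.exists_rightInverse_of_surjective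
      (LinearMap.range_rangeRestrict φ)
    let Pl : (Fin m → ℂ) →ₗ[ℂ] (Fin ρ → ℂ) := e.symm.toLinearMap ∘ₗ g
    let Ql : (Fin ρ → ℂ) →ₗ[ℂ] (Fin n → ℂ) := h ∘ₗ e.toLinearMap
    refine ⟨LinearMap.toMatrix' Pl, LinearMap.toMatrix' Ql, ?_⟩
    have hC : C = LinearMap.toMatrix' φ := by
      change C = LinearMap.toMatrix' C.mulVecLin
      rw [← Matrix.toLin'_apply', LinearMap.toMatrix'_toLin']
    rw [hC, ← LinearMap.toMatrix'_comp, ← LinearMap.toMatrix'_comp]
    have : (Pl ∘ₗ φ) ∘ₗ Ql = LinearMap.id := by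
      ext1 i
      ext1
      apply e.injective
      have h1 : φ (Ql (Pi.single i 1)) = ((e (Pi.single i 1) : LinearMap.range φ) : Fin m → ℂ) := by
        have h2 := LinearMap.congr_fun hh (e (Pi.single i 1))
        have h3 := congrArg (Subtype.val) h2
        exact h3
      have h4 : g ((e (Pi.single i 1) : LinearMap.range φ) : Fin m → ℂ) = e (Pi.single i 1) :=
        LinearMap.congr_fun hg (e (Pi.single i 1))
      change e (e.symm (g (φ (Ql (Pi.single i 1))))) = e (Pi.single i 1)
      rw [h1, h4, LinearEquiv.apply_symm_apply]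
    rw [this, LinearMap.toMatrix'_id]
  let S1 : EE G (Fin ρ) →L[ℂ] EE G (Fin m) :=
    ∑ x : Fin ρ × Fin m, P x.1 x.2 • elem (a x.2) x.2 x.1
  let S2 : EE G (Fin n) →L[ℂ] EE G (Fin ρ) :=
    ∑ x : Fin ρ × Fin n, Q x.2 x.1 • elem ((b x.2)⁻¹) x.1 x.2
  have hS1 : ∀ F u k, S1 F (u, k) = ∑ i : Fin ρ, P i k * F ((a k)⁻¹ * u, i) := by
    intro F u k
    have h1 : S1 F (u, k) = ∑ x : Fin ρ × Fin m, P x.1 x.2 * (elem (a x.2) x.2 x.1 F) (u, k) := by
      simp only [S1]
      rw [sum_apply, sum_apply_EE]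
      rfl
    rw [h1, Fintype.sum_prod_type]
    refine Finset.sum_congr rfl fun i _ => ?_
    rw [Finset.sum_eq_single k]
    · rw [elem_apply, if_pos rfl]
    · intro k' _ hk'
      rw [elem_apply, if_neg (Ne.symm hk'), mul_zero]
    · intro h; exact absurd (Finset.mem_univ _) h
  have hS2 : ∀ F u i, S2 F (u, i) = ∑ j : Fin n, Q j i * F (b j * u, j) := by
    intro F u i
    have h1 : S2 F (u, i) = ∑ x : Fin ρ × Fin n, Q x.2 x.1 * (elem ((b x.2)⁻¹) x.1 x.2 F) (u, i) := by
      simp only [S2]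
      rw [sum_apply, sum_apply_EE]
      rfl
    rw [h1, Fintype.sum_prod_type, Finset.sum_eq_single i]
    · refine Finset.sum_congr rfl fun j _ => ?_
      rw [elem_apply, if_pos rfl, inv_inv]
    · intro i' _ hi'
      apply Finset.sum_eq_zero
      intro j _
      rw [elem_apply, if_neg (Ne.symm hi'), mul_zero]
    · intro h; exact absurd (Finset.mem_univ _) h
  have hS1e : Eqv S1 := by
    intro k f
    ext ⟨u, i⟩
    rw [tr_apply, hS1, hS1]
    refine Finset.sum_congr rfl fun i' _ => ?_
    rw [tr_apply]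
    simp only [mul_assoc]
  have hS2e : Eqv S2 := by
    intro k f
    ext ⟨u, i⟩
    rw [tr_apply, hS2, hS2]
    refine Finset.sum_congr rfl fun i' _ => ?_
    rw [tr_apply]
    simp only [mul_assoc]
  have hid : ∀ F, S2 (S (S1 F)) = F := by
    intro F
    ext ⟨u, i⟩
    rw [hS2]
    have h1 : ∀ j : Fin n, Q j i * (S (S1 F)) (b j * u, j)
        = ∑ k : Fin m, ∑ i' : Fin ρ, P i' k * C k j * Q j i * F (u, i') := by
      intro j
      rw [hSapp, Finset.mul_sum]
      refine Finset.sum_congr rfl fun k _ => ?_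
      rw [hS1, Finset.mul_sum, Finset.mul_sum]
      refine Finset.sum_congr rfl fun i' _ => ?_
      have e : (a k)⁻¹ * (a k * (b j)⁻¹ * (b j * u)) = u := by group
      rw [e]
      ring
    rw [Finset.sum_congr rfl fun j _ => h1 j]
    have h2 : ∑ j : Fin n, ∑ k : Fin m, ∑ i' : Fin ρ, P i' k * C k j * Q j i * F (u, i')
        = ∑ i' : Fin ρ, (P * C * Q) i' i * F (u, i') := by
      have h3 : ∀ i', (P * C * Q) i' i * F (u, i')
          = ∑ j : Fin n, ∑ k : Fin m, P i' k * C k j * Q j i * F (u, i') := by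
        intro i'
        rw [Matrix.mul_apply, Finset.sum_mul]
        refine Finset.sum_congr rfl fun j _ => ?_
        rw [Matrix.mul_apply, Finset.sum_mul, Finset.sum_mul]
      rw [Finset.sum_congr rfl fun i' _ => h3 i']
      rw [Finset.sum_comm (s := (Finset.univ : Finset (Fin ρ)))]
      refine Finset.sum_congr rfl fun j _ => ?_
      rw [Finset.sum_comm]
    rw [h2, hPQ, Finset.sum_eq_single i]
    · rw [Matrix.one_apply_eq, one_mul]
    · intro i' _ hi'
      rw [Matrix.one_apply_ne hi', zero_mul]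
    · intro h; exact absurd (Finset.mem_univ _) h
  -- dimensions
  have h1 : (ρ : ℝ) ≤ vd (LinearMap.range (S : EE G (Fin m) →ₗ[ℂ] EE G (Fin n))) := by
    have h2 : (⊤ : Submodule ℂ (EE G (Fin ρ)))
        ≤ (LinearMap.range (S : EE G (Fin m) →ₗ[ℂ] EE G (Fin n))).map
          (S2 : EE G (Fin n) →ₗ[ℂ] EE G (Fin ρ)) := by
      intro F _
      exact ⟨S (S1 F), ⟨S1 F, rfl⟩, hid F⟩
    have h3 := vd_mono h2
    rw [vd_top, Fintype.card_fin] at h3
    exact h3.trans (vd_map_le S2 hS2e (inv_range S hSe))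
  have h2 := ker_add_range S hSe
  rw [Fintype.card_fin] at h2
  linarith

end

end Pool.Agent.D0H80.AZ
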