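import Pool.Agent.D0H80.AZ.Init
import Pool.Agent.W649.ZL.Supp

set_option autoImplicit false
set_option linter.unusedSectionVars false

open scoped InnerProductSpace InnerProduct ENNReal

/-! Kernel dimensions: initial parts of elements of the group algebra, and subgroups. -/

namespace Pool.Agent.D0H80.AZ

open Pool.Agent.W649.ZL

universe u v

section
variable {G : Type u} [Group G]

/-- the dimension of the kernel of an element of the group algebra -/
noncomputable abbrev kv (α : G →₀ ℂ) : ℝ :=
  vd (LinearMap.ker (cop α : EE G Unit →ₗ[ℂ] EE G Unit))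

theorem cop_dl (α : G →₀ ℂ) (g x : G) : cop α (dl (g, ())) (x, ()) = α (x * g⁻¹) := by
  rw [cop_apply]
  by_cases h : x * g⁻¹ ∈ α.support
  · rw [Finset.sum_eq_single (x * g⁻¹)]
    · have e : ((x * g⁻¹)⁻¹ * x, ()) = (g, ()) := by simp
      rw [e, dl_apply_self, mul_one]
    · intro k _ hk
      rw [dl_apply_ne, mul_zero]
      intro h2
      apply hk
      have h3 : k⁻¹ * x = g := congrArg Prod.fst h2
      rw [← h3]
      group
    · intro h2; exact absurd h h2
  · rw [Finsupp.notMem_support_iff.1 h]
    apply Finset.sum_eq_zero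
    intro k hk
    rw [dl_apply_ne, mul_zero]
    intro h2
    apply h
    have h3 : k⁻¹ * x = g := congrArg Prod.fst h2
    rw [← h3]
    have e : x * (k⁻¹ * x)⁻¹ = k := by group
    rw [e]; exact hk

variable {X : Type v} [LinearOrder X] [MulAction G X]

/-- The kernel dimension of `α` is at most that of its initial part. -/
theorem kv_initial (hX : ∀ (g : G) (x y : X), x ≤ y → g • x ≤ g • y) (α : G →₀ ℂ) (x m : X)
    [DecidablePred (fun t : G => t • x = m)] (hm : ∀ t ∈ α.support, m ≤ t • x) :
    kv α ≤ kv (α.filter (fun t => t • x = m)) := by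
  classical
  refine vd_ker_le hX (fun _ : Unit => x) (fun _ : Unit => m) (cop α)
    (cop (α.filter (fun t => t • x = m))) (cop_eqv α) ?_ ?_ ?_
  · rintro ⟨g, ⟨⟩⟩ ⟨y, ⟨⟩⟩ hlt
    rw [cop_dl]
    by_contra hne
    have h1 := hm _ (Finsupp.mem_support_iff.2 hne)
    have h2 := hX y⁻¹ _ _ h1
    unfold lev at hlt
    simp only at hlt
    rw [smul_smul, inv_mul_cancel_left] at h2
    exact absurd h2 (not_le.2 hlt)
  · rintro f ⟨y, ⟨⟩⟩ hf
    rw [cop_apply, cop_apply, Finsupp.support_filter, Finset.sum_filter]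
    refine Finset.sum_congr rfl fun k _ => ?_
    by_cases hk : k • x = m
    · rw [if_pos hk, Finsupp.filter_apply_pos (fun t => t • x = m) α hk]
    · rw [if_neg hk, hf, mul_zero]
      unfold lev
      simp only
      intro h
      apply hk
      rw [mul_inv_rev, inv_inv, mul_smul] at h
      exact MulAction.injective _ h
  · rintro f g ⟨y, ⟨⟩⟩ hfg
    rw [cop_apply, cop_apply]
    refine Finset.sum_congr rfl fun k hk => ?_
    rw [hfg]
    unfold lev
    simp only
    rw [Finsupp.support_filter, Finset.mem_filter] at hk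
    rw [mul_inv_rev, inv_inv, mul_smul, hk.2]

end

section
variable {G : Type u} [Group G]

/-- the element seen in a subgroup -/
noncomputable abbrev toSub (H : Subgroup G) (α : G →₀ ℂ) : H →₀ ℂ :=
  α.comapDomain (Subtype.val : H → G) Subtype.val_injective.injOn

theorem sum_toSub (H : Subgroup G) (α : G →₀ ℂ) (hα : ∀ x ∈ α.support, x ∈ H) (φ : G → ℂ) :
    ∑ k ∈ (toSub H α).support, toSub H α k * φ (k : G) = ∑ t ∈ α.support, α t * φ t := by
  classical
  rw [Finsupp.comapDomain_support]
  refine Finset.sum_bij (fun t _ => (t : G)) ?_ ?_ ?_ ?_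
  · intro t ht
    exact (Finset.mem_preimage.1 ht)
  · intro a _ b _ hab
    exact Subtype.ext hab
  · intro b hb
    exact ⟨⟨b, hα b hb⟩, Finset.mem_preimage.2 hb, rfl⟩
  · intro t _
    rw [Finsupp.comapDomain_apply]

theorem res_mem (H : Subgroup G) (f : lp (fun _ : G => ℂ) 2) :
    Memℓp (fun h : H => f (h : G)) 2 := by
  rw [memlp_two_iff]
  exact ((memlp_two_iff _).1 f.2).comp_injective Subtype.val_injective

/-- restriction to a subgroup -/
noncomputable def resS (H : Subgroup G) (f : lp (fun _ : G => ℂ) 2) : lp (fun _ : H => ℂ) 2 :=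
  ⟨fun h => f (h : G), res_mem H f⟩

open Classical in
theorem ext_mem (H : Subgroup G) (f : lp (fun _ : H => ℂ) 2) :
    Memℓp (fun g : G => if h : g ∈ H then f ⟨g, h⟩ else 0) 2 := by
  rw [memlp_two_iff]
  have h1 := (memlp_two_iff _).1 f.2
  have hinj : Function.Injective (Subtype.val : H → G) := Subtype.val_injective
  refine (hinj.summable_iff (fun x hx => ?_)).1 ?_
  · have hx' : x ∉ H := by
      intro hx'
      exact hx ⟨⟨x, hx'⟩, rfl⟩
    rw [dif_neg hx']; simp
  · convert h1 using 1
    ext h
    simp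

open Classical in
/-- extension by zero -/
noncomputable def extS (H : Subgroup G) (f : lp (fun _ : H => ℂ) 2) : lp (fun _ : G => ℂ) 2 :=
  ⟨fun g : G => if h : g ∈ H then f ⟨g, h⟩ else 0, ext_mem H f⟩

theorem extS_apply (H : Subgroup G) (f : lp (fun _ : H => ℂ) 2) (h : H) :
    extS H f (h : G) = f h := dif_pos h.2

theorem extS_apply_ne (H : Subgroup G) (f : lp (fun _ : H => ℂ) 2) (g : G) (hg : g ∉ H) :
    extS H f g = 0 := dif_neg hg

theorem extS_sub (H : Subgroup G) (a b : lp (fun _ : H => ℂ) 2) :
    extS H (a - b) = extS H a - extS H b := by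
  ext g
  by_cases hg : g ∈ H
  · have e1 : extS H (a - b) g = (a - b) ⟨g, hg⟩ := dif_pos hg
    have e2 : extS H a g = a ⟨g, hg⟩ := dif_pos hg
    have e3 : extS H b g = b ⟨g, hg⟩ := dif_pos hg
    change extS H (a - b) g = extS H a g - extS H b g
    rw [e1, e2, e3]
    rfl
  · change extS H (a - b) g = extS H a g - extS H b g
    rw [extS_apply_ne _ _ _ hg, extS_apply_ne _ _ _ hg, extS_apply_ne _ _ _ hg, sub_zero]

theorem resS_sub (H : Subgroup G) (a b : lp (fun _ : G => ℂ) 2) :
    resS H (a - b) = resS H a - resS H b := rfl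

theorem norm_resS_le (H : Subgroup G) (f : lp (fun _ : G => ℂ) 2) : ‖resS H f‖ ≤ ‖f‖ := by
  have e : ‖resS H f‖ ^ 2 ≤ ‖f‖ ^ 2 := by
    rw [norm_sq_tsum, norm_sq_tsum]
    exact tsum_comp_le_tsum_of_inj ((memlp_two_iff _).1 f.2) (fun _ => by positivity)
      Subtype.val_injective
  exact (sq_le_sq₀ (norm_nonneg _) (norm_nonneg _)).1 e

theorem norm_extS (H : Subgroup G) (f : lp (fun _ : H => ℂ) 2) : ‖extS H f‖ = ‖f‖ := by
  have e : ‖extS H f‖ ^ 2 = ‖f‖ ^ 2 := by
    rw [norm_sq_tsum, norm_sq_tsum]
    have hinj : Function.Injective (Subtype.val : H → G) := Subtype.val_injective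
    rw [← hinj.tsum_eq]
    · refine tsum_congr fun h => ?_
      rw [extS_apply]
    · intro x hx
      by_contra hcon
      apply hx
      simp only
      rw [extS_apply_ne]
      · simp
      · intro h; exact hcon ⟨⟨x, h⟩, rfl⟩
  exact (sq_eq_sq₀ (norm_nonneg _) (norm_nonneg _)).1 e

open Classical in
/-- the basis vector at the identity -/
noncomputable def sg (G : Type u) [Group G] : lp (fun _ : G => ℂ) 2 :=
  lp.single 2 (1 : G) (1 : ℂ)

theorem sg_one (G : Type u) [Group G] : sg G (1 : G) = 1 := by
  classical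
  unfold sg
  exact lp.single_apply_self (E := fun _ : G => ℂ) 2 (1 : G) (1 : ℂ)

theorem sg_ne (G : Type u) [Group G] (g : G) (hg : g ≠ 1) : sg G g = 0 := by
  classical
  unfold sg
  exact lp.single_apply_ne (E := fun _ : G => ℂ) 2 (1 : G) (1 : ℂ) hg

theorem kv_eq (G : Type u) [Group G] (β : G →₀ ℂ) :
    kv β = 1 - Metric.infDist (sg G) (kern β) ^ 2 := (kerDim_eq_vd β).symm

theorem resS_single (H : Subgroup G) : resS H (sg G) = sg H := by
  ext h
  change (sg G) (h : G) = sg H h
  by_cases hh : h = 1
  · subst hh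
    rw [sg_one H]
    exact sg_one G
  · rw [sg_ne H h hh]
    apply sg_ne
    intro h2; exact hh (Subtype.ext h2)

theorem extS_single (H : Subgroup G) : extS H (sg H) = sg G := by
  ext g
  by_cases hg : g ∈ H
  · have h1 : g = ((⟨g, hg⟩ : H) : G) := rfl
    rw [h1, extS_apply, ← resS_single]
    rfl
  · rw [extS_apply_ne _ _ _ hg]
    symm
    apply sg_ne
    rintro rfl
    exact hg H.one_mem

/-- Kernel dimensions may be computed in a subgroup. -/
theorem kv_toSub (H : Subgroup G) (α : G →₀ ℂ) (hα : ∀ x ∈ α.support, x ∈ H) :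
    kv α = kv (toSub H α) := by
  rw [kv_eq, kv_eq]
  have h0 : ∀ (G : Type u) [Group G] (β : G →₀ ℂ), (kern β).Nonempty := fun G _ β =>
    ⟨0, fun g => by simp⟩
  have h1 : Metric.infDist (sg G) (kern α) = Metric.infDist (sg H) (kern (toSub H α)) := by
    apply le_antisymm
    · rw [Metric.le_infDist (h0 H _)]
      intro f hf
      have h2 : extS H f ∈ kern α := by
        intro g
        by_cases hg : g ∈ H
        · have h3 := hf ⟨g, hg⟩
          rw [← sum_toSub H α hα (fun k => extS H f (k⁻¹ * g))]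
          rw [← h3]
          refine Finset.sum_congr rfl fun k _ => ?_
          have e : ((k : G)⁻¹ * g) = ((k⁻¹ * ⟨g, hg⟩ : H) : G) := rfl
          rw [e, extS_apply]
        · apply Finset.sum_eq_zero
          intro k hk
          rw [extS_apply_ne, mul_zero]
          intro h3
          apply hg
          have := H.mul_mem (hα k hk) h3
          rwa [mul_inv_cancel_left] at this
      refine (Metric.infDist_le_dist_of_mem h2).trans (le_of_eq ?_)
      rw [dist_eq_norm, dist_eq_norm, ← extS_single H, ← extS_sub, norm_extS]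
    · rw [Metric.le_infDist (h0 G _)]
      intro f hf
      have h2 : resS H f ∈ kern (toSub H α) := by
        intro g
        have h3 := hf (g : G)
        rw [← sum_toSub H α hα (fun k => f (k⁻¹ * (g : G)))] at h3
        exact h3
      refine (Metric.infDist_le_dist_of_mem h2).trans ?_
      rw [dist_eq_norm, dist_eq_norm, ← resS_single H, ← resS_sub]
      exact norm_resS_le H _
  rw [h1]

end

end Pool.Agent.D0H80.AZ
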